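import Pool.Agent.H57.AR.Targets
import Pool.Agent.H95.GR.POW

/-!
# Canonization of relations on a power, all arities (row GCN)
-/

set_option autoImplicit false

namespace Pool.Agent.H48.AR.GCN

open Pool.Agent.H68.BP Pool.Agent.H58.SF Pool.Agent.H53.GC Pool.Agent.H53.NR Pool.Agent.H53.GR
open Pool.Agent.H53.RG (ulim ulim_spec cone cone_mem)
open Pool.Agent.H57.AR

private lemma sameTp_comp {V W W' : Type} [LinearOrder V] {τ : Sig} {𝔹 : Str τ V} {x y : W → V}
    (h : SameTp 𝔹 x y) (φ : W' → W) : SameTp 𝔹 (fun w => x (φ w)) (fun w => y (φ w)) := by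
  refine ⟨fun i j => h.1 _ _, ?_⟩
  have h2 := h.2
  funext l z
  exact congrFun (congrFun h2 l) (fun i => φ (z i))

open Classical in
theorem pf_GCN : T_GCN := by
  intro ρ V _ 𝔹 hR I Λ _ _ a F
  obtain ⟨k, ⟨e⟩⟩ := Finite.exists_equiv_fin (Λ → Prop)
  obtain ⟨n, ⟨eQ⟩⟩ := Finite.exists_equiv_fin (Σ l : Λ, Fin (a l) × I)
  have key : ∀ K : Finset V, ∃ g : V → V, (∀ x ∈ K, ∀ y ∈ K, x < y → g x < g y) ∧
      (∀ (l : Fin ρ.m) (z : Fin (ρ.ar l) → V), (∀ i, z i ∈ K) →
        (𝔹 l (fun i => g (z i)) ↔ 𝔹 l z)) ∧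
      ∀ (l : Λ) (u u' : Fin (a l) → I → V), (∀ b i, u b i ∈ K) → (∀ b i, u' b i ∈ K) →
        SameTp 𝔹 (fun q : Fin (a l) × I => u q.1 q.2) (fun q => u' q.1 q.2) →
        (F l (fun b i => g (u b i)) ↔ F l (fun b i => g (u' b i))) := by
    intro K
    obtain ⟨g, h1, h2, h3⟩ := hR n k K (fun z => e (fun l =>
      F l (fun b i => z (eQ ⟨l, (b, i)⟩))))
    refine ⟨g, h1, h2, fun l u u' hu hu' hT => ?_⟩
    by_cases hne : Nonempty (Fin (a l) × I)
    · obtain ⟨q0⟩ := hne
      let φ : (Σ l : Λ, Fin (a l) × I) → Fin (a l) × I := fun p =>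
        if h : p.1 = l then h ▸ p.2 else q0
      have hφ : ∀ q, φ ⟨l, q⟩ = q := fun q => dif_pos rfl
      have h4 := h3 (fun m => u (φ (eQ.symm m)).1 (φ (eQ.symm m)).2)
        (fun m => u' (φ (eQ.symm m)).1 (φ (eQ.symm m)).2)
        (fun _ => hu _ _) (fun _ => hu' _ _) (sameTp_comp hT (fun m => φ (eQ.symm m)))
      have h5 := congrFun (e.injective h4) l
      have h6 : ∀ (b : Fin (a l)) (i : I), φ (eQ.symm (eQ ⟨l, (b, i)⟩)) = (b, i) := by
        intro b i
        rw [Equiv.symm_apply_apply]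
        exact hφ _
      simp only [h6] at h5
      exact iff_of_eq h5
    · have huu : u = u' := by
        funext b i
        exact absurd ⟨(b, i)⟩ hne
      rw [huu]
  choose g hg hb hT using key
  have hu : ∀ (l : Λ) (u : Fin (a l) → I → V),
      ∀ᶠ K in ((cone V : Ultrafilter (Finset V)) : Filter (Finset V)),
      F l (fun b i => g K (u b i)) = ulim (cone V) (fun K => F l (fun b i => g K (u b i))) :=
    fun l u => ulim_spec _ _
  have hF : ∀ {J : Type} [Finite J] (v : J → I → V),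
      ∀ᶠ K in ((cone V : Ultrafilter (Finset V)) : Filter (Finset V)), ∀ j i, v j i ∈ K := by
    intro J _ v
    refine Filter.eventually_all.2 fun j => Filter.eventually_all.2 fun i => ?_
    filter_upwards [cone_mem {v j i}] with K hK
    exact hK (Finset.mem_singleton_self _)
  refine ⟨fun l u => ulim (cone V) (fun K => F l (fun b i => g K (u b i))), ?_, ?_⟩
  · intro l u u' huu
    obtain ⟨K, ⟨⟨h1, h2⟩, h3⟩, h4⟩ := ((((hu l u).and (hu l u')).and (hF u)).and (hF u')).exists
    exact (iff_of_eq h1).symm.trans ((hT K l u u' h3 h4 huu).trans (iff_of_eq h2))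
  · intro K
    have h1 : ∀ᶠ K' in ((cone V : Ultrafilter (Finset V)) : Filter (Finset V)),
        ∀ (l : Λ) (u : Fin (a l) → I → K),
          F l (fun b i => g K' (u b i)) =
            ulim (cone V) (fun K' => F l (fun b i => g K' (u b i))) :=
      Filter.eventually_all.2 fun l => Filter.eventually_all.2 fun u =>
        hu l (fun b i => (u b i : V))
    obtain ⟨K', hK1, hK2⟩ := (h1.and (cone_mem K)).exists
    have hsub : ∀ x ∈ K, x ∈ K' := fun x hx => hK2 hx
    refine ⟨g K', fun x hx y hy hxy => hg K' x (hsub x hx) y (hsub y hy) hxy,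
      fun l z hz => hb K' l z fun i => hsub _ (hz i), fun l u hul => ?_⟩
    exact (iff_of_eq (hK1 l (fun b i => ⟨u b i, hul b i⟩))).symm

end Pool.Agent.H48.AR.GCN
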